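import Pool.Agent.K3h30.RS.Stm4

/-!
# Euler products without finitely many factors, and products of elements `1 - σ⁻¹`
-/

set_option autoImplicit false

open NumberField IsDedekindDomain Filter Topology

noncomputable section

namespace Pool.Agent.K3h91.RS

open Pool.Agent.K3h30.RS

theorem t_EULER : S_EULER := by
  intro I _ S V f a hd hf h
  have h1 : HasProd (Set.mulIndicator {v : I | v ∉ S} fun v => (f v)⁻¹) a :=
    (hasProd_subtype_iff_mulIndicator (s := {v : I | v ∉ S}) (f := fun v => (f v)⁻¹)).1 h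
  have h2 : HasProd (fun v : I => if v ∈ V then f v else 1) (∏ v ∈ V, if v ∈ V then f v else 1) :=
    hasProd_prod_of_ne_finset_one fun v hv => if_neg hv
  have h3 : ∏ v ∈ V, (if v ∈ V then f v else 1) = ∏ v ∈ V, f v :=
    Finset.prod_congr rfl fun v hv => if_pos hv
  rw [h3] at h2
  have h4 := h2.mul h1
  refine (hasProd_subtype_iff_mulIndicator (s := {v : I | v ∉ S ∪ V}) (f := fun v => (f v)⁻¹)).2 ?_
  have h5 : (Set.mulIndicator {v : I | v ∉ S ∪ V} fun v => (f v)⁻¹) =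
      fun v => (if v ∈ V then f v else 1) * Set.mulIndicator {v : I | v ∉ S} (fun v => (f v)⁻¹) v := by
    funext v
    by_cases hv : v ∈ V
    · have hS : v ∉ S := fun h6 => (Finset.disjoint_left.1 hd) h6 hv
      rw [Set.mulIndicator_of_notMem, if_pos hv, Set.mulIndicator_of_mem, mul_inv_cancel₀ (hf v hv)]
      · exact hS
      · intro h6
        exact h6 (Finset.mem_union_right _ hv)
    · rw [if_neg hv, one_mul]
      by_cases hS : v ∈ S
      · rw [Set.mulIndicator_of_notMem, Set.mulIndicator_of_notMem]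
        · exact fun h6 => h6 hS
        · exact fun h6 => h6 (Finset.mem_union_left _ hS)
      · rw [Set.mulIndicator_of_mem, Set.mulIndicator_of_mem]
        · exact hS
        · intro h6
          rcases Finset.mem_union.1 h6 with h7 | h7
          · exact hS h7
          · exact hv h7
  rw [h5]
  exact h4

/-- `p` divides `(1 - x) ^ (p ^ k)` if `x ^ (p ^ k) = 1`. -/
theorem dvd_pow_pow {R : Type*} [CommRing R] {p k : ℕ} (hp : p.Prime) (hk : k ≠ 0) (x : R)
    (hx : x ^ p ^ k = 1) : (p : R) ∣ (1 - x) ^ p ^ k := by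
  obtain ⟨r, hr⟩ := exists_add_pow_prime_pow_eq hp (1 : R) (-x) k
  rw [sub_eq_add_neg, hr, one_pow]
  rcases hp.eq_two_or_odd' with rfl | ho
  · have he : Even (2 ^ k) := Nat.even_pow.2 ⟨even_two, hk⟩
    rw [he.neg_pow, hx]
    exact ⟨1 - x * r, by push_cast; ring⟩
  · rw [(ho.pow).neg_pow, hx]
    exact ⟨-(x * r), by ring⟩

theorem t_NILP : S_NILP := by
  intro G _ _ p m hp
  classical
  have := Fintype.ofFinite G
  set k := Nat.card G with hk
  have hk0 : k ≠ 0 := Nat.card_pos.ne'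
  refine ⟨Fintype.card G * (p ^ k * m), ?_⟩
  intro I V σ hC
  rcases Nat.eq_zero_or_pos m with rfl | hm
  · exact ⟨_, by rw [pow_zero, one_mul]⟩
  set V' : Finset I := V.filter (fun v => ∃ j : ℕ, σ v ^ p ^ j = 1) with hV'
  have hcard : Nat.card {v : I // v ∈ V ∧ ∃ j : ℕ, σ v ^ p ^ j = 1} = V'.card := by
    have e : {v : I // v ∈ V ∧ ∃ j : ℕ, σ v ^ p ^ j = 1} ≃ {v : I // v ∈ V'} :=
      Equiv.subtypeEquivRight fun v => by rw [hV', Finset.mem_filter]
    rw [Nat.card_congr e, Nat.card_eq_fintype_card, Fintype.card_coe]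
  rw [hcard] at hC
  obtain ⟨g, -, hg⟩ := Finset.exists_le_card_fiber_of_mul_le_card_of_maps_to
    (s := V') (t := (Finset.univ : Finset G)) (f := σ) (n := p ^ k * m)
    (fun a _ => Finset.mem_univ _) ⟨1, Finset.mem_univ _⟩ (by rwa [Finset.card_univ])
  set W : Finset I := V'.filter (fun v => σ v = g) with hW
  have hq : 0 < p ^ k * m := Nat.mul_pos (pow_pos hp.pos k) hm
  obtain ⟨v₀, hv₀⟩ : W.Nonempty := Finset.card_pos.1 (lt_of_lt_of_le hq hg)
  obtain ⟨hv1, hv2⟩ := Finset.mem_filter.1 hv₀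
  obtain ⟨-, j, hj⟩ := Finset.mem_filter.1 hv1
  rw [hv2] at hj
  -- the order of `g`
  have hgk : g ^ p ^ k = 1 := by
    obtain ⟨i, hi, ho⟩ := (Nat.dvd_prime_pow hp).1 (orderOf_dvd_of_pow_eq_one hj)
    have h1 : p ^ i ≤ k := by
      rw [← ho, hk]
      exact orderOf_le_card
    have h2 : i ≤ k := (Nat.lt_pow_self hp.one_lt).le.trans h1
    exact orderOf_dvd_iff_pow_eq_one.1 (ho ▸ pow_dvd_pow p h2)
  have hx : (MonoidAlgebra.single g⁻¹ (1 : ℤ)) ^ p ^ k = 1 := by
    rw [MonoidAlgebra.single_pow, inv_pow, hgk, inv_one, one_pow, MonoidAlgebra.one_def]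
  obtain ⟨y, hy⟩ := dvd_pow_pow hp hk0 (MonoidAlgebra.single g⁻¹ (1 : ℤ)) hx
  have hWV : W ⊆ V := fun v hv => (Finset.mem_filter.1 (Finset.mem_filter.1 hv).1).1
  have hprod : ∏ v ∈ W, (1 - MonoidAlgebra.single (σ v)⁻¹ (1 : ℤ)) =
      (1 - MonoidAlgebra.single g⁻¹ (1 : ℤ)) ^ W.card := by
    rw [Finset.prod_congr rfl fun v hv => by rw [(Finset.mem_filter.1 hv).2], Finset.prod_const]
  obtain ⟨t, ht⟩ := Nat.exists_eq_add_of_le hg
  refine ⟨y ^ m * (1 - MonoidAlgebra.single g⁻¹ (1 : ℤ)) ^ t *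
    ∏ v ∈ V \ W, (1 - MonoidAlgebra.single (σ v)⁻¹ (1 : ℤ)), ?_⟩
  rw [← Finset.prod_sdiff hWV, hprod, ht, pow_add, pow_mul, hy, mul_pow]
  ring

end Pool.Agent.K3h91.RS
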